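import Mathlib

/-!
# Limit points of the automorphism-to-lattice-endomorphism ratio

For a finite lattice `L` let `r(L) = |Aut(L)| / |End_l(L)|`, where `End_l(L)` is the set of
lattice endomorphisms preserving all (also the empty) suprema and infima, and `Aut(L)` the set of
bijective ones.  We determine the limiting set `Λ` of `r`: it is the whole interval `[0,1]`.

The lattices used are horizontal sums of `m` copies of `1 ⊕ M_n ⊕ 1`; they have
`r = (a / (a + n + 2)) ^ m` with `a = |Aut(M_n)| ≥ n!`.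
-/

namespace Pool.Agent.Results.MP_e86a57_co.LimitSetUnitInterval

open Topology

/-- A finite nonempty lattice; it is automatically bounded. -/
structure FinLattice where
  carrier : Type
  [lattice : Lattice carrier]
  [bounded : BoundedOrder carrier]
  [finite : Finite carrier]

attribute [instance] FinLattice.lattice FinLattice.bounded FinLattice.finite

/-- Lattice endomorphisms: the self-maps preserving binary suprema and infima, and `0` and `1`. -/
abbrev EndL (L : Type) [Lattice L] [BoundedOrder L] : Type := BoundedLatticeHom L L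

/-- Lattice automorphisms: the bijective lattice endomorphisms. -/
abbrev AutL (L : Type) [Lattice L] [BoundedOrder L] : Type :=
  {f : BoundedLatticeHom L L // Function.Bijective f}

/-- The ratio `r(L) = |Aut(L)| / |End_l(L)|`. -/
noncomputable def ratio (L : FinLattice) : ℝ :=
  (Nat.card (AutL L.carrier) : ℝ) / (Nat.card (EndL L.carrier) : ℝ)

/-- The limiting set `Λ`: all `x ∈ [0,1]` for which there are finite lattices `L_1, L_2, …` with
`|L_k| → ∞` and `r(L_k) → x`. -/
def limitingSet : Set ℝ :=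
  {x | x ∈ Set.Icc (0 : ℝ) 1 ∧ ∃ L : ℕ → FinLattice,
    Filter.Tendsto (fun k => Nat.card (L k).carrier) Filter.atTop Filter.atTop ∧
    Filter.Tendsto (fun k => ratio (L k)) Filter.atTop (𝓝 x)}

/-! ### Horizontal sums -/

/-- The horizontal sum of `ι` copies of `0 ⊕ K ⊕ 1`. -/
inductive HS (ι K : Type) : Type
  | bot : HS ι K
  | top : HS ι K
  | mid (i : ι) (x : K) : HS ι K

namespace HS

variable {ι K : Type} [DecidableEq ι] [Lattice K]

def sup' : HS ι K → HS ι K → HS ι K
  | bot, y => y
  | top, _ => top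
  | mid i x, bot => mid i x
  | mid _ _, top => top
  | mid i x, mid j y => if i = j then mid i (x ⊔ y) else top

def inf' : HS ι K → HS ι K → HS ι K
  | top, y => y
  | bot, _ => bot
  | mid i x, top => mid i x
  | mid _ _, bot => bot
  | mid i x, mid j y => if i = j then mid i (x ⊓ y) else bot

instance : Max (HS ι K) := ⟨sup'⟩
instance : Min (HS ι K) := ⟨inf'⟩

@[simp] lemma s1 (y : HS ι K) : (bot ⊔ y : HS ι K) = y := rfl
@[simp] lemma s2 (y : HS ι K) : (top ⊔ y : HS ι K) = top := rfl
@[simp] lemma s3 (y : HS ι K) : (y ⊔ bot : HS ι K) = y := by cases y <;> rfl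
@[simp] lemma s4 (y : HS ι K) : (y ⊔ top : HS ι K) = top := by cases y <;> rfl
@[simp] lemma s5 (i : ι) (x y : K) : (mid i x ⊔ mid i y : HS ι K) = mid i (x ⊔ y) :=
  if_pos rfl
lemma s6 {i j : ι} (h : i ≠ j) (x y : K) : (mid i x ⊔ mid j y : HS ι K) = top := if_neg h

@[simp] lemma i1 (y : HS ι K) : (top ⊓ y : HS ι K) = y := rfl
@[simp] lemma i2 (y : HS ι K) : (bot ⊓ y : HS ι K) = bot := rfl
@[simp] lemma i3 (y : HS ι K) : (y ⊓ top : HS ι K) = y := by cases y <;> rfl
@[simp] lemma i4 (y : HS ι K) : (y ⊓ bot : HS ι K) = bot := by cases y <;> rfl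
@[simp] lemma i5 (i : ι) (x y : K) : (mid i x ⊓ mid i y : HS ι K) = mid i (x ⊓ y) :=
  if_pos rfl
lemma i6 {i j : ι} (h : i ≠ j) (x y : K) : (mid i x ⊓ mid j y : HS ι K) = bot := if_neg h

lemma sup_comm' (a b : HS ι K) : a ⊔ b = b ⊔ a := by
  rcases a with _ | _ | ⟨i, x⟩ <;> rcases b with _ | _ | ⟨j, y⟩ <;> try simp
  by_cases h : i = j
  · subst h; simp [sup_comm]
  · rw [s6 h, s6 (Ne.symm h)]

lemma inf_comm' (a b : HS ι K) : a ⊓ b = b ⊓ a := by
  rcases a with _ | _ | ⟨i, x⟩ <;> rcases b with _ | _ | ⟨j, y⟩ <;> try simp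
  by_cases h : i = j
  · subst h; simp [inf_comm]
  · rw [i6 h, i6 (Ne.symm h)]

lemma sup_assoc' (a b c : HS ι K) : a ⊔ b ⊔ c = a ⊔ (b ⊔ c) := by
  rcases a with _ | _ | ⟨i, x⟩ <;> rcases b with _ | _ | ⟨j, y⟩ <;>
    rcases c with _ | _ | ⟨k, z⟩ <;> try simp
  by_cases h : i = j
  · subst h
    by_cases h' : i = k
    · subst h'; simp [sup_assoc]
    · rw [s5, s6 h', s6 h', s4]
  · rw [s6 h, s2]
    by_cases h' : j = k
    · subst h'; rw [s5, s6 h]
    · rw [s6 h', s4]

lemma inf_assoc' (a b c : HS ι K) : a ⊓ b ⊓ c = a ⊓ (b ⊓ c) := by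
  rcases a with _ | _ | ⟨i, x⟩ <;> rcases b with _ | _ | ⟨j, y⟩ <;>
    rcases c with _ | _ | ⟨k, z⟩ <;> try simp
  by_cases h : i = j
  · subst h
    by_cases h' : i = k
    · subst h'; simp [inf_assoc]
    · rw [i5, i6 h', i6 h', i4]
  · rw [i6 h, i2]
    by_cases h' : j = k
    · subst h'; rw [i5, i6 h]
    · rw [i6 h', i4]

lemma sup_inf_self' (a b : HS ι K) : a ⊔ a ⊓ b = a := by
  rcases a with _ | _ | ⟨i, x⟩ <;> rcases b with _ | _ | ⟨j, y⟩ <;> try simp
  by_cases h : i = j
  · subst h; simp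
  · rw [i6 h, s3]

lemma inf_sup_self' (a b : HS ι K) : a ⊓ (a ⊔ b) = a := by
  rcases a with _ | _ | ⟨i, x⟩ <;> rcases b with _ | _ | ⟨j, y⟩ <;> try simp
  by_cases h : i = j
  · subst h; simp
  · rw [s6 h, i3]

instance : Lattice (HS ι K) :=
  Lattice.mk' sup_comm' sup_assoc' inf_comm' inf_assoc' sup_inf_self' inf_sup_self'

instance : BoundedOrder (HS ι K) where
  top := top
  bot := bot
  le_top a := sup_eq_right.1 (s4 a)
  bot_le a := sup_eq_right.1 (s1 a)

lemma top_eq : (⊤ : HS ι K) = top := rfl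
lemma bot_eq : (⊥ : HS ι K) = bot := rfl

/-- The endomorphism permuting the summands by `σ` and acting by `g i` on the `i`-th one. -/
def lift (σ : Equiv.Perm ι) (g : ι → LatticeHom K K) : BoundedLatticeHom (HS ι K) (HS ι K) where
  toFun a := match a with
    | bot => bot
    | top => top
    | mid i x => mid (σ i) (g i x)
  map_sup' a b := by
    rcases a with _ | _ | ⟨i, x⟩ <;> rcases b with _ | _ | ⟨j, y⟩ <;> try simp
    by_cases h : i = j
    · subst h; simp
    · rw [s6 h, s6 (fun h' => h (σ.injective h'))]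
  map_inf' a b := by
    rcases a with _ | _ | ⟨i, x⟩ <;> rcases b with _ | _ | ⟨j, y⟩ <;> try simp
    by_cases h : i = j
    · subst h; simp
    · rw [i6 h, i6 (fun h' => h (σ.injective h'))]
  map_top' := rfl
  map_bot' := rfl

@[simp] lemma lift_mid (σ : Equiv.Perm ι) (g : ι → LatticeHom K K) (i : ι) (x : K) :
    lift σ g (mid i x) = mid (σ i) (g i x) := rfl
@[simp] lemma lift_bot (σ : Equiv.Perm ι) (g : ι → LatticeHom K K) :
    lift σ g bot = bot := rfl
@[simp] lemma lift_top (σ : Equiv.Perm ι) (g : ι → LatticeHom K K) :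
    lift σ g top = top := rfl

lemma lift_injective [Nonempty K] :
    Function.Injective (fun p : Equiv.Perm ι × (ι → LatticeHom K K) => lift p.1 p.2) := by
  rintro ⟨σ, g⟩ ⟨τ, h⟩ hst
  have key : ∀ i x, σ i = τ i ∧ g i x = h i x := by
    intro i x
    have := DFunLike.congr_fun hst (mid i x)
    simpa using this
  obtain ⟨x0⟩ := ‹Nonempty K›
  have h1 : σ = τ := Equiv.ext fun i => (key i x0).1
  have h2 : g = h := by
    funext i
    exact LatticeHom.ext fun x => (key i x).2
  rw [h1, h2]

/-- Any endomorphism maps interior elements to interior elements. -/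
lemma exists_mid [Finite ι] (h3 : 3 ≤ Nat.card ι) (f : BoundedLatticeHom (HS ι K) (HS ι K))
    (i : ι) (x : K) : ∃ j y, f (mid i x) = mid j y := by
  classical
  have := Fintype.ofFinite ι
  rw [Nat.card_eq_fintype_card] at h3
  obtain ⟨j, hj⟩ : ∃ j, j ∉ ({i} : Finset ι) := by
    by_contra hc
    push Not at hc
    have : (Finset.univ : Finset ι) ⊆ {i} := fun j _ => hc j
    have := Finset.card_le_card this
    simp at this
    omega
  obtain ⟨k, hk⟩ : ∃ k, k ∉ ({i, j} : Finset ι) := by
    by_contra hc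
    push Not at hc
    have : (Finset.univ : Finset ι) ⊆ {i, j} := fun j _ => hc j
    have := Finset.card_le_card this
    have h2 : ({i, j} : Finset ι).card ≤ 2 := Finset.card_le_two
    simp at this
    omega
  simp only [Finset.mem_singleton, Finset.mem_insert, not_or] at hj hk
  have hsup : ∀ {p q : ι}, p ≠ q → f (mid p x) ⊔ f (mid q x) = top := by
    intro p q hpq
    rw [← map_sup, s6 hpq]
    exact map_top f
  have hinf : ∀ {p q : ι}, p ≠ q → f (mid p x) ⊓ f (mid q x) = bot := by
    intro p q hpq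
    rw [← map_inf, i6 hpq]
    exact map_bot f
  rcases hf : f (mid i x) with _ | _ | ⟨a, u⟩
  · exfalso
    have h1 := hsup (Ne.symm hj)
    have h2 := hsup (Ne.symm hk.1)
    have h3 := hinf (Ne.symm hk.2)
    rw [hf, s1] at h1 h2
    rw [h1, h2] at h3
    cases h3
  · exfalso
    have h1 := hinf (Ne.symm hj)
    have h2 := hinf (Ne.symm hk.1)
    have h3 := hsup (Ne.symm hk.2)
    rw [hf, i1] at h1 h2
    rw [h1, h2] at h3
    cases h3
  · exact ⟨a, u, rfl⟩

lemma ne_index (f : BoundedLatticeHom (HS ι K) (HS ι K)) {i j a b : ι} {x y u v : K}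
    (hij : i ≠ j) (h1 : f (mid i x) = mid a u) (h2 : f (mid j y) = mid b v) : a ≠ b := by
  rintro rfl
  have h : f (mid i x ⊓ mid j y) = f (mid i x) ⊓ f (mid j y) := map_inf f _ _
  rw [h1, h2, i6 hij, i5] at h
  have h' : f bot = bot := map_bot f
  rw [h'] at h
  cases h

lemma lift_surjective [Finite ι] [Nonempty K] (h3 : 3 ≤ Nat.card ι) :
    Function.Surjective (fun p : Equiv.Perm ι × (ι → LatticeHom K K) => lift p.1 p.2) := by
  intro f
  obtain ⟨x0⟩ := ‹Nonempty K›
  choose s u hsu using exists_mid h3 f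
  have hinj : Function.Injective (fun i => s i x0) := by
    intro i j hij
    by_contra hne
    exact ne_index f hne (hsu i x0) (hsu j x0) hij
  have hbij : Function.Bijective (fun i => s i x0) := Finite.injective_iff_bijective.1 hinj
  have hs : ∀ i x, s i x = s i x0 := by
    intro i x
    obtain ⟨j, hj⟩ := hbij.2 (s i x)
    by_cases hij : i = j
    · subst hij; exact hj.symm
    · exact absurd hj.symm (ne_index f hij (hsu i x) (hsu j x0))
  have hu : ∀ i x, f (mid i x) = mid (s i x0) (u i x) := by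
    intro i x
    rw [hsu i x, hs i x]
  let g : ι → LatticeHom K K := fun i =>
    { toFun := u i
      map_sup' := by
        intro x y
        have h : f (mid i x ⊔ mid i y) = f (mid i x) ⊔ f (mid i y) := map_sup f _ _
        rw [s5, hu, hu, hu, s5] at h
        injection h
      map_inf' := by
        intro x y
        have h : f (mid i x ⊓ mid i y) = f (mid i x) ⊓ f (mid i y) := map_inf f _ _
        rw [i5, hu, hu, hu, i5] at h
        injection h }
  refine ⟨(Equiv.ofBijective _ hbij, g), ?_⟩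
  apply DFunLike.ext
  intro a
  rcases a with _ | _ | ⟨i, x⟩
  · exact (map_bot f).symm
  · exact (map_top f).symm
  · rw [hu i x]
    rfl

lemma lift_bijective_iff [Nonempty K] (σ : Equiv.Perm ι) (g : ι → LatticeHom K K) :
    Function.Bijective (lift σ g) ↔ ∀ i, Function.Bijective (g i) := by
  constructor
  · rintro ⟨hi, hs⟩ i
    constructor
    · intro x y hxy
      have : lift σ g (mid i x) = lift σ g (mid i y) := by simp [hxy]
      have := hi this
      injection this
    · intro y
      obtain ⟨a, ha⟩ := hs (mid (σ i) y)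
      rcases a with _ | _ | ⟨j, x⟩
      · cases ha
      · cases ha
      · rw [lift_mid] at ha
        injection ha with h1 h2
        have := σ.injective h1
        subst this
        exact ⟨x, h2⟩
  · intro h
    constructor
    · intro a b hab
      rcases a with _ | _ | ⟨i, x⟩ <;> rcases b with _ | _ | ⟨j, y⟩ <;>
        first
          | rfl
          | cases hab
          | skip
      rw [lift_mid, lift_mid] at hab
      injection hab with h1 h2
      have := σ.injective h1
      subst this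
      rw [(h i).1 h2]
    · intro b
      rcases b with _ | _ | ⟨j, y⟩
      · exact ⟨bot, rfl⟩
      · exact ⟨top, rfl⟩
      · obtain ⟨x, hx⟩ := (h (σ.symm j)).2 y
        exact ⟨mid (σ.symm j) x, by rw [lift_mid, hx, Equiv.apply_symm_apply]⟩

noncomputable def endEquiv [Finite ι] [Nonempty K] (h3 : 3 ≤ Nat.card ι) :
    (Equiv.Perm ι × (ι → LatticeHom K K)) ≃ EndL (HS ι K) :=
  Equiv.ofBijective _ ⟨lift_injective, lift_surjective h3⟩

lemma card_end [Finite ι] [Nonempty K] (h3 : 3 ≤ Nat.card ι) :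
    Nat.card (EndL (HS ι K)) =
      Nat.card (Equiv.Perm ι) * Nat.card (LatticeHom K K) ^ Nat.card ι := by
  rw [← Nat.card_congr (endEquiv (K := K) h3), Nat.card_prod, Nat.card_fun]

lemma card_aut [Finite ι] [Nonempty K] (h3 : 3 ≤ Nat.card ι) :
    Nat.card (AutL (HS ι K)) =
      Nat.card (Equiv.Perm ι) *
        Nat.card {g : LatticeHom K K // Function.Bijective g} ^ Nat.card ι := by
  have e1 : AutL (HS ι K) ≃ {p : Equiv.Perm ι × (ι → LatticeHom K K) //
      ∀ i, Function.Bijective (p.2 i)} := by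
    refine ((endEquiv (K := K) h3).subtypeEquiv ?_).symm
    intro p
    exact (lift_bijective_iff p.1 p.2).symm
  have e2 : {p : Equiv.Perm ι × (ι → LatticeHom K K) // ∀ i, Function.Bijective (p.2 i)} ≃
      Equiv.Perm ι × (ι → {g : LatticeHom K K // Function.Bijective g}) :=
    { toFun := fun p => (p.1.1, fun i => ⟨p.1.2 i, p.2 i⟩)
      invFun := fun p => ⟨(p.1, fun i => (p.2 i).1), fun i => (p.2 i).2⟩
      left_inv := fun _ => rfl
      right_inv := fun _ => rfl }
  rw [Nat.card_congr (e1.trans e2), Nat.card_prod, Nat.card_fun]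

end HS

/-! ### The lattices `M_n` -/

section Mn

variable {ι : Type} [DecidableEq ι]

/-- `M ι`: an antichain `ι` with a bottom and a top added. -/
abbrev M (ι : Type) : Type := HS ι Unit

abbrev atm (i : ι) : M ι := HS.mid i ()

lemma const_of_top_bot (g : LatticeHom (M ι) (M ι)) (h : g ⊤ = g ⊥) (x : M ι) : g x = g ⊥ :=
  le_antisymm (h ▸ OrderHomClass.mono g le_top) (OrderHomClass.mono g bot_le)

lemma const_a (g : LatticeHom (M ι) (M ι)) {i j : ι} (hij : i ≠ j)
    (h : g (atm i) = g (atm j)) : g ⊤ = g ⊥ := by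
  have h1 : g (atm i ⊔ atm j) = g (atm i) ⊔ g (atm j) := map_sup g _ _
  have h2 : g (atm i ⊓ atm j) = g (atm i) ⊓ g (atm j) := map_inf g _ _
  rw [HS.s6 hij, h, sup_idem] at h1
  rw [HS.i6 hij, h, inf_idem] at h2
  rw [HS.top_eq, HS.bot_eq, h1, h2]

lemma two_others [Finite ι] (h3 : 3 ≤ Nat.card ι) (i : ι) :
    ∃ j k : ι, i ≠ j ∧ i ≠ k ∧ j ≠ k := by
  have := Fintype.ofFinite ι
  rw [Nat.card_eq_fintype_card] at h3
  obtain ⟨j, hj⟩ : ∃ j, j ∉ ({i} : Finset ι) := by
    by_contra hc
    push Not at hc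
    have : (Finset.univ : Finset ι) ⊆ {i} := fun j _ => hc j
    have := Finset.card_le_card this
    simp at this
    omega
  obtain ⟨k, hk⟩ : ∃ k, k ∉ ({i, j} : Finset ι) := by
    by_contra hc
    push Not at hc
    have : (Finset.univ : Finset ι) ⊆ {i, j} := fun j _ => hc j
    have := Finset.card_le_card this
    have h2 : ({i, j} : Finset ι).card ≤ 2 := Finset.card_le_two
    simp at this
    omega
  simp only [Finset.mem_singleton, Finset.mem_insert, not_or] at hj hk
  exact ⟨j, k, Ne.symm hj, Ne.symm hk.1, Ne.symm hk.2⟩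

lemma const_b [Finite ι] (h3 : 3 ≤ Nat.card ι) (g : LatticeHom (M ι) (M ι)) {i : ι}
    (h : g ⊥ = g (atm i)) : g ⊤ = g ⊥ := by
  obtain ⟨j, k, hij, hik, hjk⟩ := two_others h3 i
  have key : ∀ {p : ι}, i ≠ p → g ⊤ = g (atm p) := by
    intro p hp
    have h1 : g (atm i ⊔ atm p) = g (atm i) ⊔ g (atm p) := map_sup g _ _
    rw [HS.s6 hp, ← h, sup_eq_right.2 (OrderHomClass.mono g bot_le)] at h1
    exact h1
  exact const_a g hjk ((key hij).symm.trans (key hik))

lemma const_c [Finite ι] (h3 : 3 ≤ Nat.card ι) (g : LatticeHom (M ι) (M ι)) {i : ι}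
    (h : g ⊤ = g (atm i)) : g ⊤ = g ⊥ := by
  obtain ⟨j, k, hij, hik, hjk⟩ := two_others h3 i
  have key : ∀ {p : ι}, i ≠ p → g ⊥ = g (atm p) := by
    intro p hp
    have h1 : g (atm i ⊓ atm p) = g (atm i) ⊓ g (atm p) := map_inf g _ _
    rw [HS.i6 hp, ← h, inf_eq_right.2 (OrderHomClass.mono g le_top)] at h1
    exact h1
  exact const_a g hjk ((key hij).symm.trans (key hik))

lemma injective_or_const [Finite ι] (h3 : 3 ≤ Nat.card ι) (g : LatticeHom (M ι) (M ι)) :
    Function.Injective g ∨ g ⊤ = g ⊥ := by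
  by_cases hc : g ⊤ = g ⊥
  · exact Or.inr hc
  left
  intro a b hab
  rcases a with _ | _ | ⟨i, ⟨⟩⟩ <;> rcases b with _ | _ | ⟨j, ⟨⟩⟩
  · rfl
  · exact absurd hab.symm hc
  · exact absurd (const_b h3 g hab) hc
  · exact absurd hab hc
  · rfl
  · exact absurd (const_c h3 g hab) hc
  · exact absurd (const_b h3 g hab.symm) hc
  · exact absurd (const_c h3 g hab.symm) hc
  · by_cases hij : i = j
    · rw [hij]
    · exact absurd (const_a g hij hab) hc

/-- The carrier of a horizontal sum as a sum type. -/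
def hsEquiv (κ K : Type) : HS κ K ≃ Option (Option (κ × K)) where
  toFun
    | .bot => none
    | .top => some none
    | .mid i x => some (some (i, x))
  invFun
    | none => .bot
    | some none => .top
    | some (some p) => .mid p.1 p.2
  left_inv := by rintro (_ | _ | _) <;> rfl
  right_inv := by rintro (_ | _ | _) <;> rfl

instance {κ K : Type} [Finite κ] [Finite K] : Finite (HS κ K) :=
  Finite.of_equiv _ (hsEquiv κ K).symm

lemma card_hs (κ K : Type) [Finite κ] [Finite K] :
    Nat.card (HS κ K) = Nat.card κ * Nat.card K + 2 := by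
  rw [Nat.card_congr (hsEquiv κ K), Finite.card_option, Finite.card_option, Nat.card_prod]

instance : Nonempty (M ι) := ⟨⊥⟩

/-- The constant homomorphism. -/
def constHom (x : M ι) : LatticeHom (M ι) (M ι) where
  toFun _ := x
  map_sup' _ _ := (sup_idem x).symm
  map_inf' _ _ := (inf_idem x).symm

lemma bot_ne_top : (⊥ : M ι) ≠ ⊤ := by
  intro h; cases h

noncomputable def nonBijEquiv [Finite ι] (h3 : 3 ≤ Nat.card ι) :
    {g : LatticeHom (M ι) (M ι) // ¬ Function.Bijective g} ≃ M ι where
  toFun g := g.1 ⊥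
  invFun x := ⟨constHom x, fun h => bot_ne_top (h.1 (show constHom x ⊥ = constHom x ⊤ from rfl))⟩
  left_inv := by
    rintro ⟨g, hg⟩
    apply Subtype.ext
    apply LatticeHom.ext
    intro x
    have hc : g ⊤ = g ⊥ := by
      rcases injective_or_const h3 g with h | h
      · exact absurd (Finite.injective_iff_bijective.1 h) hg
      · exact h
    exact (const_of_top_bot g hc x).symm
  right_inv _ := rfl

instance (κ K : Type) [DecidableEq κ] [Lattice K] [Finite κ] [Finite K] :
    Finite (LatticeHom (HS κ K) (HS κ K)) :=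
  Finite.of_injective (fun g => (g : HS κ K → HS κ K)) DFunLike.coe_injective

instance (K : Type) [Lattice K] [Finite K] : Finite (LatticeHom K K) :=
  Finite.of_injective (fun g => (g : K → K)) DFunLike.coe_injective

lemma card_hom_M [Finite ι] (h3 : 3 ≤ Nat.card ι) :
    Nat.card (LatticeHom (M ι) (M ι)) =
      Nat.card {g : LatticeHom (M ι) (M ι) // Function.Bijective g} + (Nat.card ι + 2) := by
  classical
  have e := Nat.card_congr (Equiv.sumCompl
    (fun g : LatticeHom (M ι) (M ι) => Function.Bijective g))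
  rw [Nat.card_sum, Nat.card_congr (nonBijEquiv h3), card_hs] at e
  rw [← e]
  simp

lemma factorial_le_card_aut [Finite ι] (h3 : 3 ≤ Nat.card ι) :
    (Nat.card ι).factorial ≤
      Nat.card {g : LatticeHom (M ι) (M ι) // Function.Bijective g} := by
  rw [← Nat.card_perm]
  let F : Equiv.Perm ι → {g : LatticeHom (M ι) (M ι) // Function.Bijective g} := fun σ =>
    ⟨(HS.lift σ (fun _ => LatticeHom.id Unit)).toLatticeHom,
      (HS.lift_bijective_iff σ (fun _ => LatticeHom.id Unit)).2
        (fun _ => Function.bijective_id)⟩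
  apply Nat.card_le_card_of_injective F
  intro σ τ h
  apply Equiv.ext
  intro i
  have h1 := congrArg (fun g => g.1 (atm i)) h
  have h2 : (HS.mid (σ i) () : M ι) = HS.mid (τ i) () := h1
  injection h2

end Mn

/-! ### The family -/

/-- The horizontal sum of `m` copies of `1 ⊕ M_n ⊕ 1`. -/
def fam (m n : ℕ) : FinLattice where
  carrier := HS (Fin m) (M (Fin n))

/-- `q n` is the ratio of automorphisms among the (not necessarily bounded) lattice
endomorphisms of `M_n`. -/
noncomputable def q (n : ℕ) : ℝ :=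
  (Nat.card {g : LatticeHom (M (Fin n)) (M (Fin n)) // Function.Bijective g} : ℝ) /
    (Nat.card (LatticeHom (M (Fin n)) (M (Fin n))) : ℝ)

lemma ratio_fam (m n : ℕ) (hm : 3 ≤ m) : ratio (fam m n) = q n ^ m := by
  have h3 : 3 ≤ Nat.card (Fin m) := by simpa using hm
  unfold ratio q
  have e1 : Nat.card (AutL (fam m n).carrier) = _ := HS.card_aut (ι := Fin m) (K := M (Fin n)) h3
  have e2 : Nat.card (EndL (fam m n).carrier) = _ := HS.card_end (ι := Fin m) (K := M (Fin n)) h3
  rw [e1, e2, Nat.card_perm]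
  push_cast
  have hf : ((Nat.card (Fin m)).factorial : ℝ) ≠ 0 := by
    exact_mod_cast (Nat.factorial_pos _).ne'
  rw [mul_div_mul_left _ _ hf, div_pow]
  simp

lemma card_fam (m n : ℕ) (hm : 3 ≤ m) : n ≤ Nat.card (fam m n).carrier := by
  have : Nat.card (fam m n).carrier = _ := card_hs (Fin m) (M (Fin n))
  rw [this, card_hs]
  simp
  nlinarith

lemma q_nonneg (n : ℕ) : 0 ≤ q n := by unfold q; positivity

lemma one_sub_q (n : ℕ) : 0 ≤ 1 - q (n + 3) ∧ 1 - q (n + 3) ≤ 1 / (n + 1 : ℝ) ∧
    0 < 1 - q (n + 3) := by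
  have h3 : 3 ≤ Nat.card (Fin (n + 3)) := by simp
  have h1 := card_hom_M h3
  have h2 := factorial_le_card_aut h3
  unfold q
  rw [h1]
  set a := Nat.card {g : LatticeHom (M (Fin (n + 3))) (M (Fin (n + 3))) // Function.Bijective g}
    with ha
  rw [Nat.card_fin] at h2 ⊢
  have h4 : (n + 5) * (n + 1) ≤ a := by
    refine le_trans ?_ h2
    have : (n + 3).factorial = (n + 3) * ((n + 2) * ((n + 1) * n.factorial)) := by
      rw [Nat.factorial_succ, Nat.factorial_succ, Nat.factorial_succ]
    rw [this]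
    have hn := Nat.factorial_pos n
    have h5 : n + 5 ≤ (n + 3) * (n + 2) := by nlinarith
    calc (n + 5) * (n + 1) ≤ ((n + 3) * (n + 2)) * (n + 1) := Nat.mul_le_mul_right _ h5
      _ = (n + 3) * ((n + 2) * ((n + 1) * 1)) := by ring
      _ ≤ _ := by gcongr; exact hn
  have h4' : ((n : ℝ) + 5) * (n + 1) ≤ a := by exact_mod_cast h4
  have hpos : (0 : ℝ) < a + (n + 5) := by positivity
  have heq : 1 - (a : ℝ) / ((a + (n + 3 + 2) : ℕ) : ℝ) = (n + 5) / (a + (n + 5)) := by
    push_cast
    have : (a : ℝ) + (n + 3 + 2) = a + (n + 5) := by ring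
    rw [this]
    field_simp
    ring
  rw [heq]
  refine ⟨by positivity, ?_, by positivity⟩
  rw [div_le_div_iff₀ hpos (by positivity)]
  nlinarith

/-- Every point of `[0,1]` is approximated by ratios of arbitrarily large lattices. -/
lemma approx (x : ℝ) (hx : x ∈ Set.Icc (0 : ℝ) 1) (k : ℕ) :
    ∃ L : FinLattice, k ≤ Nat.card L.carrier ∧ |ratio L - x| ≤ 1 / (k + 1 : ℝ) := by
  obtain ⟨hx0, hx1⟩ := hx
  set ε : ℝ := 1 / (k + 1 : ℝ) with hε
  have hεpos : 0 < ε := by positivity
  have hε1 : ε ≤ 1 := by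
    rw [hε, div_le_one (by positivity)]
    have : (0 : ℝ) ≤ k := Nat.cast_nonneg k
    linarith
  -- choose `n`
  set n : ℕ := 3 * k + 3 with hn
  obtain ⟨h1, h2, h2'⟩ := one_sub_q n
  have h3 : 1 / (n + 1 : ℝ) ≤ ε / 3 := by
    rw [hε, div_div]
    apply one_div_le_one_div_of_le (by positivity)
    rw [hn]; push_cast; linarith
  set Q := q (n + 3) with hQ
  have hQ0 : 0 ≤ Q := q_nonneg _
  have hQ1 : Q < 1 := by linarith
  have hQε : 1 - Q ≤ ε / 3 := by linarith
  have hex : ∃ m, Q ^ (m + 3) < x + ε := by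
    obtain ⟨m, hm⟩ := exists_pow_lt_of_lt_one (show (0 : ℝ) < x + ε by linarith) hQ1
    refine ⟨m, lt_of_le_of_lt ?_ hm⟩
    exact pow_le_pow_of_le_one hQ0 hQ1.le (by omega)
  classical
  set m := Nat.find hex with hm
  have hm1 : Q ^ (m + 3) < x + ε := Nat.find_spec hex
  have hm2 : x - ε ≤ Q ^ (m + 3) := by
    rcases Nat.eq_zero_or_pos m with h0 | hpos
    · rw [h0]
      have : 1 - 3 * (1 - Q) ≤ Q ^ 3 := by nlinarith [sq_nonneg (1 - Q), hQ0]
      simp only [zero_add]
      linarith
    · obtain ⟨m', hm'⟩ := Nat.exists_eq_succ_of_ne_zero hpos.ne'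
      have hlt : m' < Nat.find hex := by omega
      have := Nat.find_min hex hlt
      push Not at this
      rw [hm']
      have e : Q ^ (m'.succ + 3) = Q ^ (m' + 3) * Q := by
        rw [← pow_succ]
      rw [e]
      nlinarith [mul_nonneg hεpos.le hQ0]
  refine ⟨fam (m + 3) (n + 3), ?_, ?_⟩
  · refine le_trans ?_ (card_fam (m + 3) (n + 3) (by omega))
    omega
  · rw [ratio_fam _ _ (by omega), ← hQ, abs_le]
    constructor <;> linarith

/-- **Theorem.**  The set of limit values of `|Aut(L)| / |End_l(L)|` as `|L| → ∞`, with `L`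
ranging over finite lattices, is the whole interval `[0,1]`. -/
theorem result : limitingSet = Set.Icc (0 : ℝ) 1 := by
  apply Set.Subset.antisymm
  · intro x hx
    exact hx.1
  · intro x hx
    refine ⟨hx, ?_⟩
    choose L hL1 hL2 using approx x hx
    refine ⟨L, Filter.tendsto_atTop_mono hL1 Filter.tendsto_id, ?_⟩
    rw [tendsto_iff_dist_tendsto_zero]
    refine squeeze_zero (fun k => dist_nonneg) (fun k => ?_)
      (tendsto_one_div_add_atTop_nhds_zero_nat (𝕜 := ℝ))
    rw [Real.dist_eq]
    exact hL2 k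

end Pool.Agent.Results.MP_e86a57_co.LimitSetUnitInterval
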